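import Pool.Agent.Helper75.PX.Stmts3

/-! Row B2 of the sheet `Pool.Agent.Helper75.PX.Stmts3`. -/

set_option autoImplicit false

universe u

open Module TensorProduct

namespace Pool.Agent.Helper75.PX

theorem st_B2 : ST_B2.{u} := by
  intro K A _ _ _ _ i j a b h2 h
  have hi := h.hi
  have hj := h.hj
  rw [Algebra.algebraMap_eq_smul_one] at hi hj
  have hji : j * i = -(i * j) := by rw [h.hij, neg_neg]
  have hi0 : i ≠ 0 := by
    intro h0
    rw [h0, mul_zero] at hi
    exact h.a0 ((smul_eq_zero.1 hi.symm).resolve_right one_ne_zero)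
  have aux : ∀ x y : K, x • (1 : A) + y • i = 0 → x = 0 ∧ y = 0 := by
    intro x y hxy
    have e1 : j * (x • (1 : A) + y • i) * j = b • (x • (1 : A) - y • i) := by
      rw [mul_add, add_mul, mul_smul_comm, mul_smul_comm, smul_mul_assoc, smul_mul_assoc, mul_one,
        hj, hji, neg_mul, mul_assoc, hj, mul_smul_comm, mul_one]
      module
    rw [hxy, mul_zero, zero_mul] at e1
    have e2 : x • (1 : A) - y • i = 0 := (smul_eq_zero.1 e1.symm).resolve_left h.b0
    have e3 : (2 * x) • (1 : A) = 0 := by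
      calc (2 * x) • (1 : A) = (x • (1 : A) + y • i) + (x • (1 : A) - y • i) := by module
        _ = 0 := by rw [hxy, e2, add_zero]
    have e4 : (2 * y) • i = 0 := by
      calc (2 * y) • i = (x • (1 : A) + y • i) - (x • (1 : A) - y • i) := by module
        _ = 0 := by rw [hxy, e2, sub_zero]
    have e5 := (smul_eq_zero.1 e3).resolve_right one_ne_zero
    have e6 := (smul_eq_zero.1 e4).resolve_right hi0
    exact ⟨(mul_eq_zero.1 e5).resolve_left h2, (mul_eq_zero.1 e6).resolve_left h2⟩
  rw [Fintype.linearIndependent_iff]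
  intro g hg
  have hg' : (g (0, 0) • (1 : A) + g (1, 0) • i) + (g (0, 1) • (1 : A) + g (1, 1) • i) * j = 0 := by
    rw [← hg, Fintype.sum_prod_type]
    simp only [Fin.sum_univ_two, e2q, Fin.val_zero, Fin.val_one, pow_zero, pow_one, one_mul,
      mul_one]
    rw [add_mul, smul_mul_assoc, smul_mul_assoc, one_mul]
    abel
  have e7 : i * ((g (0, 0) • (1 : A) + g (1, 0) • i) +
      (g (0, 1) • (1 : A) + g (1, 1) • i) * j) * i =
      a • ((g (0, 0) • (1 : A) + g (1, 0) • i) - (g (0, 1) • (1 : A) + g (1, 1) • i) * j) := by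
    have c1 : i * (g (0, 0) • (1 : A) + g (1, 0) • i) * i =
        a • (g (0, 0) • (1 : A) + g (1, 0) • i) := by
      rw [mul_add, add_mul, mul_smul_comm, mul_smul_comm, smul_mul_assoc, smul_mul_assoc, mul_one,
        hi, smul_mul_assoc, one_mul]
      module
    have c2 : i * ((g (0, 1) • (1 : A) + g (1, 1) • i) * j) * i =
        -(a • ((g (0, 1) • (1 : A) + g (1, 1) • i) * j)) := by
      have c3 : i * ((g (0, 1) • (1 : A) + g (1, 1) • i) * j) * i =
          -(i * (g (0, 1) • (1 : A) + g (1, 1) • i) * i * j) := by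
        rw [mul_assoc i, mul_assoc _ j i, hji, mul_neg, mul_neg]
        simp only [mul_assoc]
      have c4 : i * (g (0, 1) • (1 : A) + g (1, 1) • i) * i =
          a • (g (0, 1) • (1 : A) + g (1, 1) • i) := by
        rw [mul_add, add_mul, mul_smul_comm, mul_smul_comm, smul_mul_assoc, smul_mul_assoc,
          mul_one, hi, smul_mul_assoc, one_mul]
        module
      rw [c3, c4, smul_mul_assoc]
    rw [mul_add, add_mul, c1, c2, smul_sub, sub_eq_add_neg]
  rw [hg', mul_zero, zero_mul] at e7
  have e8 := (smul_eq_zero.1 e7.symm).resolve_left h.a0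
  have p0 : (2 : K) • (g (0, 0) • (1 : A) + g (1, 0) • i) = 0 := by
    calc (2 : K) • (g (0, 0) • (1 : A) + g (1, 0) • i)
        = ((g (0, 0) • (1 : A) + g (1, 0) • i) + (g (0, 1) • (1 : A) + g (1, 1) • i) * j) +
          ((g (0, 0) • (1 : A) + g (1, 0) • i) - (g (0, 1) • (1 : A) + g (1, 1) • i) * j) := by
          module
      _ = 0 := by rw [hg', e8, add_zero]
  have p1 := (smul_eq_zero.1 p0).resolve_left h2
  obtain ⟨a1, a2⟩ := aux _ _ p1
  rw [p1, zero_add] at hg'
  have q1 : b • (g (0, 1) • (1 : A) + g (1, 1) • i) = 0 := by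
    have : (g (0, 1) • (1 : A) + g (1, 1) • i) * j * j = 0 := by rw [hg', zero_mul]
    rwa [mul_assoc, hj, mul_smul_comm, mul_one] at this
  obtain ⟨a3, a4⟩ := aux _ _ ((smul_eq_zero.1 q1).resolve_left h.b0)
  rintro ⟨s, t⟩
  fin_cases s <;> fin_cases t
  · exact a1
  · exact a3
  · exact a2
  · exact a4

end Pool.Agent.Helper75.PX
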