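import Pool.Agent.Helper75.PX.Stmts2

/-! Row DIM of the sheet `Pool.Agent.Helper75.PX.Stmts2`. -/

set_option autoImplicit false

namespace Pool.Agent.Helper75.PX

open Module

universe u

namespace DIM92

lemma finrank_range_mulRight {Ω : Type*} [Field Ω] {ι : Type*} [Fintype ι] [DecidableEq ι]
    (M : Matrix ι ι Ω) :
    finrank Ω (LinearMap.range (LinearMap.mulRight Ω M)) = Fintype.card ι * M.rank := by
  let g : (ι → Ω) →ₗ[Ω] (ι → Ω) := M.transpose.mulVecLin
  let T : (ι → LinearMap.range g) →ₗ[Ω] Matrix ι ι Ω :=
    LinearMap.pi fun i => (LinearMap.range g).subtype ∘ₗ LinearMap.proj i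
  have hT : ∀ s i, T s i = (s i : ι → Ω) := fun s i => rfl
  have hinj : Function.Injective T := by
    intro s t hst
    funext i
    apply Subtype.ext
    rw [← hT, ← hT, hst]
  have hr : LinearMap.range T = LinearMap.range (LinearMap.mulRight Ω M) := by
    ext y
    constructor
    · rintro ⟨s, rfl⟩
      choose N hN using fun i => (s i).2
      refine ⟨N, ?_⟩
      ext i j
      have h1 : (LinearMap.mulRight Ω M) N i = Matrix.vecMul (N i) M := rfl
      rw [h1, hT, ← hN i]
      simp [g]
    · rintro ⟨N, rfl⟩
      refine ⟨fun i => ⟨g (N i), N i, rfl⟩, ?_⟩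
      funext i
      rw [hT]
      change g (N i) = Matrix.vecMul (N i) M
      simp [g]
  rw [← hr, LinearMap.finrank_range_of_inj hinj, Module.finrank_pi_fintype]
  simp only [Finset.sum_const, Finset.card_univ, smul_eq_mul]
  rw [← Matrix.rank_transpose M]
  rfl

end DIM92

open DIM92 in
theorem st_DIM : ST_DIM.{u} := by
  classical
  intro K X Ω _ _ _ _ _ ι _ _ Ψ hspan hcard hfr e
  have hpos : 0 < finrank K X := by rw [hfr]; positivity
  have : FiniteDimensional K X := Module.finite_of_finrank_pos hpos
  have hmap : ∀ (κ : Type u) (v : κ → X) (x : X), x ∈ Submodule.span K (Set.range v) →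
      Ψ x ∈ Submodule.span Ω (Set.range (Ψ ∘ v)) := by
    intro κ v x hx
    induction hx using Submodule.span_induction with
    | mem x hx =>
      obtain ⟨k, rfl⟩ := hx
      exact Submodule.subset_span ⟨k, rfl⟩
    | zero => simp
    | add x y _ _ hx hy => rw [map_add]; exact Submodule.add_mem _ hx hy
    | smul a x _ hx =>
      rw [map_smul, ← IsScalarTower.algebraMap_smul Ω a (Ψ x)]
      exact Submodule.smul_mem _ _ hx
  have hind : ∀ (κ : Type u) (v : κ → X), LinearIndependent K v → LinearIndependent Ω (Ψ ∘ v) := by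
    intro κ v hv
    let b := Basis.extend hv.linearIndepOn_id
    let I := hv.linearIndepOn_id.extend (Set.subset_univ (Set.range v))
    have hfin : Finite I := Module.Finite.finite_basis b
    have hft : Fintype I := Fintype.ofFinite _
    have h1 : ⊤ ≤ Submodule.span Ω (Set.range (Ψ ∘ b)) := by
      rw [← hspan]
      refine Submodule.span_le.2 ?_
      rintro _ ⟨x, rfl⟩
      exact hmap _ b x (by rw [b.span_eq]; trivial)
    have h2 : Fintype.card I = finrank Ω (Matrix ι ι Ω) := by
      rw [← finrank_eq_card_basis b, hfr, finrank_matrix]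
      simp [sq]
    have h3 := linearIndependent_of_top_le_span_of_card_eq_finrank h1 h2
    let j : κ → I := fun k => ⟨v k, hv.linearIndepOn_id.subset_extend _ (Set.mem_range_self k)⟩
    have hj : Function.Injective j := fun k l h => hv.injective (congrArg Subtype.val h)
    have h4 := h3.comp j hj
    have h5 : (Ψ ∘ b) ∘ j = Ψ ∘ v := by
      funext k
      simp [b, j]
    rwa [h5] at h4
  set V := LinearMap.range (LinearMap.mulRight K e) with hV
  let c := Basis.ofVectorSpace K V
  let v : Basis.ofVectorSpaceIndex K V → X := fun i => (c i : X)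
  have hv : LinearIndependent K v := c.linearIndependent.map' V.subtype V.ker_subtype
  have : Fintype (Basis.ofVectorSpaceIndex K V) := Fintype.ofFinite _
  have hvs : Submodule.span K (Set.range v) = V := by
    have : Set.range v = V.subtype '' (Set.range c) := by
      rw [← Set.range_comp]; rfl
    rw [this, Submodule.span_image, c.span_eq, Submodule.map_top, Submodule.range_subtype]
  have hS : Submodule.span Ω (Set.range (Ψ ∘ v)) = LinearMap.range (LinearMap.mulRight Ω (Ψ e)) := by
    apply le_antisymm
    · refine Submodule.span_le.2 ?_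
      rintro _ ⟨i, rfl⟩
      obtain ⟨x, hx⟩ := (c i).2
      refine ⟨Ψ x, ?_⟩
      have : v i = x * e := hx.symm
      simp [this]
    · rw [← Submodule.map_top, ← hspan, Submodule.map_span]
      refine Submodule.span_le.2 ?_
      rintro _ ⟨_, ⟨x, rfl⟩, rfl⟩
      have h6 : (LinearMap.mulRight Ω (Ψ e)) (Ψ x) = Ψ (x * e) := by simp
      rw [h6]
      exact hmap _ v _ (by rw [hvs]; exact ⟨x, rfl⟩)
  have h7 := finrank_span_eq_card (hind _ v hv)
  rw [hS, finrank_range_mulRight] at h7
  rw [h7, finrank_eq_card_basis c]

end Pool.Agent.Helper75.PX
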