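import Pool.Agent.Helper75.PX.Stmts4

/-! Row CL2c of the sheet `Pool.Agent.Helper75.PX.Stmts4`. -/

set_option autoImplicit false

universe u

open Module TensorProduct

namespace Pool.Agent.Helper75.PX

theorem st_CL2c : ST_CL2c.{u} := by
  intro F K A _ _ _ _ _ L i j a b hD ha hb
  have h1 : i * i = i + a • (1 : A) := by rw [hD.hi, Algebra.algebraMap_eq_smul_one]
  have h2 : j * j = b • (1 : A) := by rw [hD.hj, Algebra.algebraMap_eq_smul_one]
  have h3 : j * i = i * j + j := by rw [hD.hji, add_mul, one_mul]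
  have h4 : i * (i * j) = i * j + a • j := by
    rw [← mul_assoc, h1, add_mul, smul_mul_assoc, one_mul]
  have h6 : i * j * j = b • i := by rw [mul_assoc, h2, mul_smul_comm, mul_one]
  have h5 : j * (i * j) = b • i + b • (1 : A) := by
    rw [← mul_assoc, h3, add_mul, h6, h2]
  have h7 : i * j * i = (i * j + a • j) + i * j := by
    rw [mul_assoc, h3, mul_add, h4]
  have h8 : i * j * (i * j) = b • (i + a • (1 : A)) + b • i := by
    rw [mul_assoc, h5, mul_add, mul_smul_comm, mul_smul_comm, h1, mul_one]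
  have hsub : ∀ c : K, c ∈ L → ∀ s : Fin 2 × Fin 2,
      c • e2q i j s ∈ Submodule.span L (Set.range (e2q i j)) := fun c hc s =>
    Submodule.smul_mem (Submodule.span L (Set.range (e2q i j))) (⟨c, hc⟩ : L)
      (Submodule.subset_span ⟨s, rfl⟩)
  have e00 : e2q i j (0, 0) = 1 := by simp [e2q]
  have e01 : e2q i j (0, 1) = j := by simp [e2q]
  have e10 : e2q i j (1, 0) = i := by simp [e2q]
  have e11 : e2q i j (1, 1) = i * j := by simp [e2q]
  have key : ∀ x : A, (∃ c0 c1 c2 c3 : K, c0 ∈ L ∧ c1 ∈ L ∧ c2 ∈ L ∧ c3 ∈ L ∧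
      x = c0 • (1 : A) + c1 • j + c2 • i + c3 • (i * j)) →
      x ∈ Submodule.span L (Set.range (e2q i j)) := by
    rintro x ⟨c0, c1, c2, c3, k0, k1, k2, k3, rfl⟩
    have m0 := hsub c0 k0 (0, 0)
    have m1 := hsub c1 k1 (0, 1)
    have m2 := hsub c2 k2 (1, 0)
    have m3 := hsub c3 k3 (1, 1)
    rw [e00] at m0
    rw [e01] at m1
    rw [e10] at m2
    rw [e11] at m3
    exact add_mem (add_mem (add_mem m0 m1) m2) m3
  have z := L.zero_mem
  have o := L.one_mem
  have t := L.add_mem o o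
  have bb := L.add_mem hb hb
  have ab := L.mul_mem hb ha
  rintro ⟨s1, s2⟩ ⟨s3, s4⟩
  apply key
  fin_cases s1 <;> fin_cases s2 <;> fin_cases s3 <;> fin_cases s4
  · exact ⟨1, 0, 0, 0, o, z, z, z, by
      change e2q i j (0, 0) * e2q i j (0, 0) = _; rw [e00, one_mul]; module⟩
  · exact ⟨0, 1, 0, 0, z, o, z, z, by
      change e2q i j (0, 0) * e2q i j (0, 1) = _; rw [e00, e01, one_mul]; module⟩
  · exact ⟨0, 0, 1, 0, z, z, o, z, by
      change e2q i j (0, 0) * e2q i j (1, 0) = _; rw [e00, e10, one_mul]; module⟩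
  · exact ⟨0, 0, 0, 1, z, z, z, o, by
      change e2q i j (0, 0) * e2q i j (1, 1) = _; rw [e00, e11, one_mul]; module⟩
  · exact ⟨0, 1, 0, 0, z, o, z, z, by
      change e2q i j (0, 1) * e2q i j (0, 0) = _; rw [e00, e01, mul_one]; module⟩
  · exact ⟨b, 0, 0, 0, hb, z, z, z, by
      change e2q i j (0, 1) * e2q i j (0, 1) = _; rw [e01, h2]; module⟩
  · exact ⟨0, 1, 0, 1, z, o, z, o, by
      change e2q i j (0, 1) * e2q i j (1, 0) = _; rw [e01, e10, h3]; module⟩
  · exact ⟨b, 0, b, 0, hb, z, hb, z, by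
      change e2q i j (0, 1) * e2q i j (1, 1) = _; rw [e01, e11, h5]; module⟩
  · exact ⟨0, 0, 1, 0, z, z, o, z, by
      change e2q i j (1, 0) * e2q i j (0, 0) = _; rw [e00, e10, mul_one]; module⟩
  · exact ⟨0, 0, 0, 1, z, z, z, o, by
      change e2q i j (1, 0) * e2q i j (0, 1) = _; rw [e10, e01]; module⟩
  · exact ⟨a, 0, 1, 0, ha, z, o, z, by
      change e2q i j (1, 0) * e2q i j (1, 0) = _; rw [e10, h1]; module⟩
  · exact ⟨0, a, 0, 1, z, ha, z, o, by
      change e2q i j (1, 0) * e2q i j (1, 1) = _; rw [e10, e11, h4]; module⟩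
  · exact ⟨0, 0, 0, 1, z, z, z, o, by
      change e2q i j (1, 1) * e2q i j (0, 0) = _; rw [e00, e11, mul_one]; module⟩
  · exact ⟨0, 0, b, 0, z, z, hb, z, by
      change e2q i j (1, 1) * e2q i j (0, 1) = _; rw [e11, e01, h6]; module⟩
  · exact ⟨0, a, 0, 1 + 1, z, ha, z, t, by
      change e2q i j (1, 1) * e2q i j (1, 0) = _; rw [e11, e10, h7]; module⟩
  · exact ⟨b * a, 0, b + b, 0, ab, z, bb, z, by
      change e2q i j (1, 1) * e2q i j (1, 1) = _; rw [e11, h8]; module⟩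

end Pool.Agent.Helper75.PX
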