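import Pool.Agent.Helper75.PX.Stmts6

/-! Row I4b of the sheet `Pool.Agent.Helper75.PX.Stmts6`. -/

set_option autoImplicit false

universe u

open Module TensorProduct

namespace Pool.Agent.Helper75.PX

theorem st_I4b : ST_I4b.{u} := by
  intro K A _ _ _ _ α β z w a b p r v h2 hD t ht
  have haa : α * α = α + a • (1 : A) := by rw [hD.haa, Algebra.algebraMap_eq_smul_one]
  have hbb : β * β = β + b • (1 : A) := by rw [hD.hbb, Algebra.algebraMap_eq_smul_one]
  have hw0 : w ≠ 0 := by
    intro h0
    have h1 := hD.hww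
    rw [h0, mul_zero] at h1
    have h3 : α = 0 := (smul_eq_zero.1 h1.symm).resolve_left hD.r0
    rw [h3, mul_zero, zero_add] at haa
    exact hD.a0 ((smul_eq_zero.1 haa.symm).resolve_right one_ne_zero)
  have aux : ∀ x y : K, x • (1 : A) + y • β = 0 → x = 0 ∧ y = 0 := by
    intro x y hxy
    have e1 : w * (x • (1 : A) + y • β) = (x • (1 : A) + y • β) * w + y • w := by
      rw [mul_add, add_mul, mul_smul_comm, mul_smul_comm, smul_mul_assoc, smul_mul_assoc, mul_one,
        one_mul, hD.hwb, add_mul, one_mul]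
      module
    rw [hxy, mul_zero, zero_mul, zero_add] at e1
    have hy : y = 0 := (smul_eq_zero.1 e1.symm).resolve_right hw0
    rw [hy, zero_smul, add_zero] at hxy
    exact ⟨(smul_eq_zero.1 hxy).resolve_right one_ne_zero, hy⟩
  unfold uE at ht
  have e2 : z * (t 0 • (1 : A) + t 1 • α + t 2 • β + t 3 • (α * β)) =
      (t 0 • (1 : A) + t 1 • α + t 2 • β + t 3 • (α * β)) * z +
        (t 1 • (1 : A) + t 3 • β) * z := by
    have f1 : z * (α * β) = α * β * z + β * z := by
      rw [← mul_assoc, hD.hza, mul_assoc, hD.hzb, ← mul_assoc, add_mul, one_mul, add_mul]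
    rw [mul_add, mul_add, mul_add, mul_smul_comm, mul_smul_comm, mul_smul_comm, mul_smul_comm,
      f1, hD.hza, hD.hzb, mul_one]
    simp only [add_mul, smul_mul_assoc, one_mul]
    module
  rw [ht, mul_zero, zero_mul, zero_add] at e2
  have e3 : t 1 • (1 : A) + t 3 • β = 0 := by
    have f2 : (t 1 • (1 : A) + t 3 • β) * z * z = 0 := by rw [← e2, zero_mul]
    rw [mul_assoc, hD.hzz, mul_smul_comm] at f2
    have f3 := (smul_eq_zero.1 f2).resolve_left hD.p0
    have f4 : (t 1 • (1 : A) + t 3 • β) * β * (β - 1) = 0 := by rw [f3, zero_mul]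
    rw [mul_assoc, mul_sub, mul_one, hbb, add_sub_cancel_left, mul_smul_comm, mul_one] at f4
    exact (smul_eq_zero.1 f4).resolve_left hD.b0
  obtain ⟨h1, h3⟩ := aux _ _ e3
  rw [h1, h3, zero_smul, zero_smul, add_zero, add_zero] at ht
  obtain ⟨h0, h2'⟩ := aux _ _ ht
  funext i
  fin_cases i
  · exact h0
  · exact h1
  · exact h2'
  · exact h3

end Pool.Agent.Helper75.PX
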